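import Pool.Agent.H97.SHL.Targets

set_option autoImplicit false

namespace Pool.Agent.H39.SHL

open Finset Pool.Agent.H97.SHL

theorem pf_PRS : T_PRS := by
  intro m B s P A M hS hd
  have h1 : pr P M = ∑ y ∈ P, (fx P M y).card := by
    unfold pr fx
    rw [Finset.card_filter, Finset.sum_product_right]
    refine Finset.sum_congr rfl fun y _ => ?_
    rw [Finset.card_filter]
  rw [h1, Finset.sum_mul]
  calc ∑ y ∈ P, (fx P M y).card * s ^ M.card ≤ ∑ _y ∈ P, P.card :=
        Finset.sum_le_sum fun y _ => hS M hd y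
    _ = P.card ^ 2 := by rw [Finset.sum_const, smul_eq_mul, sq]

end Pool.Agent.H39.SHL
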